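import Pool.Agent.H16.BP.All

/-!
# Fano varieties over imperfect fields of every characteristic are unbounded

For every prime `p` and every `d ≥ 2` with `d ≥ p - 1` the regular Fano varieties of dimension `d`
over fields of characteristic `p` do not form a bounded class, and not even a birationally bounded
class. So the statement of Borisov-Alexeev-Borisov over arbitrary fields fails in every positive
characteristic, for every `ε < 1`, and for surfaces it fails in the characteristics `2` and `3`. (The
library has the case `p = 2`. For surfaces in characteristic `p > 5` the statement is true.)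

In the theorem the Fano varieties `X` are epsilon-klt for all `ε < 1` at once, all their local rings
are localizations of polynomial rings over `F_p`, so that `X` is regular, and `- K_X` is `q` times an
ample Cartier divisor, with `q = d + 2 - p` for `p` odd and `q = d - 1` for `p = 2`. In particular
(`p = 3`) there are unboundedly many regular del Pezzo varieties (`q = d - 1`) in characteristic three
in every dimension `d ≥ 2`.

The example for `p` odd. Let `ℓ = F_p(e_0, ..., e_d, a_n, b_n, c_n : 0 ≤ n < M)`. On
`ℓ[Y_0, ..., Y_d]` let `D` be the derivation which kills the `Y_i` and such that `D e_i = Y_i`,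
`D c_n = Y_0 a_n + Y_1 b_n`, `D a_n = - 2 Y_1 c_{n-1}`, `D b_n = 2 Y_0 c_{n-1}`, where `c_{-1} = 0`. Then
`D` has degree one (the derivation in the library's example for `p = 2` has degree two), and
`D² c_n = 0`, `D³ a_n = D³ b_n = 0`, so that `D^p = 0`. The quotient `X_M = ℙ^d_ℓ / D = Proj (ker D)` is a
regular variety over the field `k = H⁰(X_M, O)` of the constants of `D` in `ℓ`, and its canonical
divisor is `- (d + 2 - p) H`, `H` the divisor of `Y_0`. Write `D = ∑ Y_i D_i`. The field `k` is killed by
the derivation `δ = [D_0, D_1]`, which is `4` on `c_n ↦ c_{n-1}` and `- 2` on `a_n ↦ a_{n-1}` and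
`b_n ↦ b_{n-1}`, and by all its powers `δ^(p^i)`, which are derivations again and which are linearly
independent on the function field of `X_M` for `p^i < M`. In a birationally bounded family the function
fields can be generated over the ground fields by a bounded number of elements, in the sense of
Kaehler differentials, but the function field of `X_M` needs at least `log_p (M - 1)`.
-/

set_option autoImplicit false

namespace Pool.Agent.Results.MP_4d8271_ag.EveryCharacteristic

open AlgebraicGeometry Pool.Agent.H187R3 Pool.Agent.H16.BP
open Pool.Agent.Y939.BAB (IsBirationallyBounded)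

/-- **Boundedness fails in every characteristic `p ≤ d + 1`.** Let `p` be a prime and `d ≥ 2` with
`p ≤ d + 1`. The regular Fano varieties of dimension `d` over fields of characteristic `p` with
`- K_X = q H`, `H` ample, where `q = d + 2 - p` if `p` is odd and `q = d - 1` if `p = 2`, are not
birationally bounded, and for every `ε < 1` the class of the epsilon-klt Fano varieties of dimension
`d` over fields of characteristic `p` is not bounded. -/
theorem result (p d : ℕ) (hp : p.Prime) (hd : 2 ≤ d) (hpd : p ≤ d + 1) :
    ¬ IsBirationallyBounded (IsRegularFano p d (if p = 2 then d - 1 else d + 2 - p)) ∧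
      ∀ ε : ℚ, ε < 1 → ¬ IsBoundedClass (fun X => CharP Γ(X, ⊤) p ∧ IsEpsKltFano ε d X) :=
  ⟨not_birBounded p d hp hd hpd, fun ε hε h => not_birBounded p d hp hd hpd
    (Pool.Agent.Y939.BAB.IsBirationallyBounded.mono (fun _ hX => ⟨hX.1, hX.2.2.2 ε hε⟩)
      (Pool.Agent.Y939.BAB.IsBirationallyBounded.of_bounded h))⟩

end Pool.Agent.Results.MP_4d8271_ag.EveryCharacteristic
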